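import Pool.Agent.Q113.MS.Stm

set_option autoImplicit false

/-! S_MO2, S_CAN of project MS (helper113). -/

namespace Pool.Agent.Q125.MS

open Finset Pool.Agent.Q113.MS

/-- number of `k`-subsets containing a given set -/
theorem card_super {α : Type} [DecidableEq α] (V J : Finset α) (k : ℕ) (hJ : J ⊆ V)
    (hk : J.card ≤ k) :
    ((V.powersetCard k).filter (fun S => J ⊆ S)).card = (V.card - J.card).choose (k - J.card) := by
  have h : ((V.powersetCard k).filter (fun S => J ⊆ S)).card =
      ((V \ J).powersetCard (k - J.card)).card := by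
    apply Finset.card_nbij' (fun S => S \ J) (fun T => T ∪ J)
    · intro S hS
      simp only [mem_coe, mem_filter, mem_powersetCard] at hS
      simp only [mem_coe, mem_powersetCard]
      refine ⟨sdiff_subset_sdiff hS.1.1 (le_refl _), ?_⟩
      rw [card_sdiff_of_subset hS.2, hS.1.2]
    · intro T hT
      simp only [mem_coe, mem_powersetCard] at hT
      simp only [mem_coe, mem_filter, mem_powersetCard]
      have hd : Disjoint T J := by
        rw [Finset.disjoint_left]
        intro x hx
        have := hT.1 hx
        rw [mem_sdiff] at this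
        exact this.2
      refine ⟨⟨union_subset (hT.1.trans sdiff_subset) hJ, ?_⟩, subset_union_right⟩
      rw [card_union_of_disjoint hd, hT.2]
      omega
    · intro S hS
      simp only [mem_coe, mem_filter, mem_powersetCard] at hS
      exact sdiff_union_of_subset hS.2
    · intro T hT
      simp only [mem_coe, mem_powersetCard] at hT
      have hd : Disjoint T J := by
        rw [Finset.disjoint_left]
        intro x hx
        have := hT.1 hx
        rw [mem_sdiff] at this
        exact this.2
      exact union_sdiff_cancel_right hd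
  rw [h, card_powersetCard, card_sdiff_of_subset hJ]

theorem choose1 (m k : ℕ) (hk : 1 ≤ k) (hm : 1 ≤ m) :
    (m : ℝ) * ((m - 1).choose (k - 1) : ℝ) = k * (m.choose k : ℝ) := by
  obtain ⟨m, rfl⟩ := Nat.exists_eq_add_of_le' hm
  obtain ⟨k, rfl⟩ := Nat.exists_eq_add_of_le' hk
  have := Nat.add_one_mul_choose_eq m k
  simp only [Nat.add_sub_cancel]
  have h : ((m + 1 : ℕ) : ℝ) * (m.choose k : ℝ) = ((m + 1).choose (k + 1) : ℝ) * ((k + 1 : ℕ) : ℝ) := by
    exact_mod_cast this
  rw [h]; ring

/-- first moment -/
theorem mo1 {α : Type} [DecidableEq α] (V : Finset α) (k : ℕ) (z : α → ℝ) (hk : 1 ≤ k) :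
    ∑ S ∈ V.powersetCard k, ∑ i ∈ S, z i = ((V.card - 1).choose (k - 1) : ℝ) * ∑ i ∈ V, z i := by
  have h1 : ∀ S ∈ V.powersetCard k, ∑ i ∈ S, z i = ∑ i ∈ V, if i ∈ S then z i else 0 := by
    intro S hS
    rw [← Finset.sum_filter]
    congr 1
    ext x
    simp only [mem_filter]
    exact ⟨fun h => ⟨(mem_powersetCard.mp hS).1 h, h⟩, fun h => h.2⟩
  rw [Finset.sum_congr rfl h1, Finset.sum_comm, Finset.mul_sum]
  apply Finset.sum_congr rfl
  intro i hi
  rw [← Finset.sum_filter, Finset.sum_const, nsmul_eq_mul]
  congr 1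
  have := card_super V {i} k (by simpa using hi) (by simpa using hk)
  simp only [singleton_subset_iff, card_singleton] at this
  rw [this]

/-- the number of `k`-sets containing `i` and `j` -/
theorem pairs {α : Type} [DecidableEq α] (V : Finset α) (k : ℕ) (i j : α) (hi : i ∈ V) (hj : j ∈ V)
    (hij : i ≠ j) (hk : 1 ≤ k) (hm : 2 ≤ V.card) :
    ((V.card : ℝ) - 1) * (((V.powersetCard k).filter (fun S => i ∈ S ∧ j ∈ S)).card : ℝ) =
      ((k : ℝ) - 1) * ((V.card - 1).choose (k - 1) : ℝ) := by
  rcases Nat.lt_or_ge k 2 with h2 | h2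
  · have hk1 : k = 1 := by omega
    subst hk1
    have : (V.powersetCard 1).filter (fun S => i ∈ S ∧ j ∈ S) = ∅ := by
      rw [filter_eq_empty_iff]
      intro S hS
      rw [mem_powersetCard] at hS
      rintro ⟨h1, h2⟩
      have := Finset.card_le_one.mp hS.2.le i h1 j h2
      exact hij this
    rw [this]; simp
  · have hc : ({i, j} : Finset α).card = 2 := Finset.card_pair hij
    have h := card_super V {i, j} k (by
      intro x hx
      simp only [mem_insert, mem_singleton] at hx
      rcases hx with rfl | rfl
      · exact hi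
      · exact hj) (by rw [hc]; exact h2)
    have e : (V.powersetCard k).filter (fun S => i ∈ S ∧ j ∈ S) =
        (V.powersetCard k).filter (fun S => {i, j} ⊆ S) := by
      apply Finset.filter_congr
      intro S _
      constructor
      · rintro ⟨h1, h2⟩ x hx
        simp only [mem_insert, mem_singleton] at hx
        rcases hx with rfl | rfl
        · exact h1
        · exact h2
      · intro h
        exact ⟨h (by simp), h (by simp)⟩
    rw [e, h, hc]
    have h1 := choose1 (V.card - 1) (k - 1) (by omega) (by omega)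
    have e1 : V.card - 1 - 1 = V.card - 2 := by omega
    have e2 : k - 1 - 1 = k - 2 := by omega
    rw [e1, e2] at h1
    have c1 : ((V.card - 1 : ℕ) : ℝ) = (V.card : ℝ) - 1 := by
      rw [Nat.cast_sub (by omega)]; simp
    have c2 : ((k - 1 : ℕ) : ℝ) = (k : ℝ) - 1 := by
      rw [Nat.cast_sub (by omega)]; simp
    rw [c1, c2] at h1
    exact h1

theorem t_MO2 : S_MO2 := by
  intro α _ V k z hk hkm hm hz
  set c1 : ℝ := ((V.card - 1).choose (k - 1) : ℝ) with hc1
  have hm1 : (V.card : ℝ) - 1 ≠ 0 := by
    have : (2 : ℝ) ≤ V.card := by exact_mod_cast hm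
    intro h; linarith
  have hm0 : (V.card : ℝ) ≠ 0 := by
    have : (2 : ℝ) ≤ V.card := by exact_mod_cast hm
    intro h; linarith
  set c2 : ℝ := ((k : ℝ) - 1) / ((V.card : ℝ) - 1) * c1 with hc2
  have h1 : ∀ S ∈ V.powersetCard k, (∑ i ∈ S, z i) ^ 2 =
      ∑ i ∈ V, ∑ j ∈ V, if i ∈ S ∧ j ∈ S then z i * z j else 0 := by
    intro S hS
    have : ∑ i ∈ S, z i = ∑ i ∈ V, if i ∈ S then z i else 0 := by
      rw [← Finset.sum_filter]
      congr 1
      ext x
      simp only [mem_filter]
      exact ⟨fun h => ⟨(mem_powersetCard.mp hS).1 h, h⟩, fun h => h.2⟩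
    rw [this, sq, Finset.sum_mul_sum]
    apply Finset.sum_congr rfl
    intro i _
    apply Finset.sum_congr rfl
    intro j _
    by_cases hi : i ∈ S <;> by_cases hj : j ∈ S <;> simp [hi, hj]
  rw [Finset.sum_congr rfl h1, Finset.sum_comm]
  have h2 : ∀ i ∈ V, ∑ S ∈ V.powersetCard k, ∑ j ∈ V, (if i ∈ S ∧ j ∈ S then z i * z j else 0) =
      c2 * (z i * ∑ j ∈ V, z j) + (c1 - c2) * z i ^ 2 := by
    intro i hi
    rw [Finset.sum_comm]
    have h3 : ∀ j ∈ V, ∑ S ∈ V.powersetCard k, (if i ∈ S ∧ j ∈ S then z i * z j else 0) =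
        c2 * (z i * z j) + (if j = i then (c1 - c2) * (z i * z j) else 0) := by
      intro j hj
      rw [← Finset.sum_filter, Finset.sum_const, nsmul_eq_mul]
      by_cases hij : j = i
      · subst hij
        rw [if_pos rfl]
        have := card_super V {j} k (by simpa using hi) (by simpa using hk)
        simp only [singleton_subset_iff, card_singleton] at this
        have e : (V.powersetCard k).filter (fun S => j ∈ S ∧ j ∈ S) =
            (V.powersetCard k).filter (fun S => j ∈ S) := by
          apply Finset.filter_congr; intro S _; simp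
        rw [e, this]
        ring
      · rw [if_neg hij]
        have := pairs V k i j hi hj (fun h => hij h.symm) hk hm
        have e : (((V.powersetCard k).filter (fun S => i ∈ S ∧ j ∈ S)).card : ℝ) = c2 := by
          rw [hc2]
          field_simp
          linarith
        rw [e]; ring
    rw [Finset.sum_congr rfl h3, Finset.sum_add_distrib, Finset.sum_ite_eq' V i, if_pos hi,
      ← Finset.mul_sum, ← Finset.mul_sum]
    ring
  rw [Finset.sum_congr rfl h2, Finset.sum_add_distrib, hz]
  simp only [mul_zero, Finset.sum_const_zero, zero_add]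
  rw [← Finset.mul_sum]
  congr 1
  have h4 := choose1 V.card k hk (by omega)
  rw [← hc1] at h4
  rw [hc2]
  have : c1 = (k : ℝ) * (V.card.choose k : ℝ) / V.card := by
    rw [eq_div_iff hm0]; linarith
  rw [this]
  field_simp
  ring

end Pool.Agent.Q125.MS
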