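import Pool.Agent.Q125.MS.Mo2

set_option autoImplicit false

/-! S_CAN, S_LT, S_HALF of project MS (helper113). -/

namespace Pool.Agent.Q125.MS

open Finset Pool.Agent.Q113.MS

/-- sum of squares of deviations -/
theorem var_eq {α : Type} [DecidableEq α] (W : Finset α) (y : α → ℝ) (q : ℝ) (hm : 1 ≤ W.card) :
    ∑ i ∈ W, (y i - q) ^ 2 = (∑ i ∈ W, y i ^ 2 - (∑ i ∈ W, y i) ^ 2 / W.card) +
      W.card * (q - (∑ i ∈ W, y i) / W.card) ^ 2 := by
  have hm0 : (W.card : ℝ) ≠ 0 := by
    have : (1 : ℝ) ≤ W.card := by exact_mod_cast hm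
    intro h; linarith
  have e : ∀ i ∈ W, (y i - q) ^ 2 = y i ^ 2 - (2 * q) * y i + q ^ 2 := fun i _ => by ring
  rw [Finset.sum_congr rfl e, Finset.sum_add_distrib, Finset.sum_sub_distrib, ← Finset.mul_sum,
    Finset.sum_const, nsmul_eq_mul]
  field_simp
  ring

theorem t_CAN : S_MO2 → S_CAN := by
  intro hMO α _ W k y v t hk hkm hm ht hv
  set m : ℝ := (W.card : ℝ) with hmdef
  have hm2 : (2 : ℝ) ≤ m := by rw [hmdef]; exact_mod_cast hm
  have hm0 : m ≠ 0 := by intro h; linarith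
  have hkr : (1 : ℝ) ≤ k := by exact_mod_cast hk
  have hkm' : (k : ℝ) ≤ m := by rw [hmdef]; exact_mod_cast hkm
  set T : ℝ := ∑ i ∈ W, y i with hT
  set z : α → ℝ := fun i => y i - T / m with hz
  have hz0 : ∑ i ∈ W, z i = 0 := by
    simp only [hz]
    rw [Finset.sum_sub_distrib, Finset.sum_const, nsmul_eq_mul, ← hT, ← hmdef]
    field_simp
    ring
  have hz2 : ∑ i ∈ W, z i ^ 2 = ∑ i ∈ W, y i ^ 2 - T ^ 2 / m := by
    have := var_eq W y (T / m) (by omega)
    simp only [hz]
    rw [this]; simp [← hT, ← hmdef]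
  have hM2 := hMO α W k z hk hkm hm hz0
  have hM1 := mo1 W k z hk
  rw [hz0, mul_zero] at hM1
  rw [hz2, ← hmdef] at hM2
  set C : ℝ := (W.card.choose k : ℝ) with hC
  have hC0 : 0 ≤ C := by rw [hC]; positivity
  set VR : ℝ := ((k : ℝ) * (m - k)) / (m * (m - 1)) * (∑ i ∈ W, y i ^ 2 - T ^ 2 / m) with hVR
  have hv0 : 0 ≤ v := by
    refine le_trans ?_ hv
    apply mul_nonneg
    · apply div_nonneg
      · apply mul_nonneg (by linarith) (by linarith)
      · apply mul_nonneg (by linarith) (by linarith)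
    · rw [← hz2]; exact Finset.sum_nonneg (fun i _ => sq_nonneg _)
  have hzB : ∀ B ∈ W.powersetCard k, ∑ i ∈ B, z i = ∑ i ∈ B, y i - (k : ℝ) / m * T := by
    intro B hB
    simp only [hz]
    rw [Finset.sum_sub_distrib, Finset.sum_const, nsmul_eq_mul, (mem_powersetCard.mp hB).2]
    ring
  set u : ℝ := v / t with hu
  have hu0 : 0 ≤ u := div_nonneg hv0 ht.le
  have htot : ∑ B ∈ W.powersetCard k, (∑ i ∈ B, z i - u) ^ 2 = C * VR + C * u ^ 2 := by
    have e : ∀ B ∈ W.powersetCard k, (∑ i ∈ B, z i - u) ^ 2 =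
        (∑ i ∈ B, z i) ^ 2 - (2 * u) * (∑ i ∈ B, z i) + u ^ 2 := fun B _ => by ring
    rw [Finset.sum_congr rfl e, Finset.sum_add_distrib, Finset.sum_sub_distrib, ← Finset.mul_sum,
      hM1, hM2, Finset.sum_const, nsmul_eq_mul, card_powersetCard, ← hC, hVR]
    ring
  set F := (W.powersetCard k).filter
      (fun B => ∑ i ∈ B, y i ≤ (k : ℝ) / m * T - t) with hF
  have hlow : (F.card : ℝ) * (t + u) ^ 2 ≤ ∑ B ∈ W.powersetCard k, (∑ i ∈ B, z i - u) ^ 2 := by
    calc (F.card : ℝ) * (t + u) ^ 2 = ∑ _B ∈ F, (t + u) ^ 2 := by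
          rw [Finset.sum_const, nsmul_eq_mul]
      _ ≤ ∑ B ∈ F, (∑ i ∈ B, z i - u) ^ 2 := by
          apply Finset.sum_le_sum
          intro B hB
          rw [hF, mem_filter] at hB
          have h1 := hzB B hB.1
          have h2 : ∑ i ∈ B, z i ≤ -t := by rw [h1]; linarith [hB.2]
          nlinarith
      _ ≤ ∑ B ∈ W.powersetCard k, (∑ i ∈ B, z i - u) ^ 2 :=
          Finset.sum_le_sum_of_subset_of_nonneg (filter_subset _ _) (fun _ _ _ => sq_nonneg _)
  rw [htot] at hlow
  have hle : (F.card : ℝ) * (t + u) ^ 2 ≤ C * (v + u ^ 2) := by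
    have : C * VR ≤ C * v := mul_le_mul_of_nonneg_left hv hC0
    linarith
  have h1 : (F.card : ℝ) * (v + t ^ 2) ^ 2 ≤ (v * C) * (v + t ^ 2) := by
    have e1 : (t + u) * t = v + t ^ 2 := by rw [hu]; field_simp; ring
    have e2 : (v + u ^ 2) * t ^ 2 = v * (v + t ^ 2) := by rw [hu]; field_simp; ring
    calc (F.card : ℝ) * (v + t ^ 2) ^ 2 = ((F.card : ℝ) * (t + u) ^ 2) * t ^ 2 := by
          rw [← e1]; ring
      _ ≤ (C * (v + u ^ 2)) * t ^ 2 := mul_le_mul_of_nonneg_right hle (sq_nonneg _)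
      _ = (v * C) * (v + t ^ 2) := by rw [mul_assoc, e2]; ring
  have hpos : 0 < v + t ^ 2 := by positivity
  have h2 : ((F.card : ℝ) * (v + t ^ 2)) * (v + t ^ 2) ≤ (v * C) * (v + t ^ 2) := by
    calc ((F.card : ℝ) * (v + t ^ 2)) * (v + t ^ 2) = (F.card : ℝ) * (v + t ^ 2) ^ 2 := by ring
      _ ≤ _ := h1
  exact le_of_mul_le_mul_right h2 hpos

theorem t_LT : S_CAN → S_LT := by
  intro hCAN α _ W k y q R T s hk hkm hR hT hs
  have hR0 : 0 ≤ R := le_trans (Finset.sum_nonneg (fun i _ => sq_nonneg _)) hR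
  rcases Nat.lt_or_ge W.card 2 with h2 | h2
  · have hW1 : W.card = 1 := by omega
    have hk1 : k = 1 := by omega
    subst hk1
    rw [hW1] at hs ⊢
    have hemp : (W.powersetCard 1).filter (fun B => ∑ i ∈ B, y i < -s) = ∅ := by
      rw [filter_eq_empty_iff]
      intro B hB hlt
      rw [mem_powersetCard] at hB
      have : B = W := Finset.eq_of_subset_of_card_le hB.1 (by rw [hB.2, hW1])
      rw [this] at hlt
      have e : ((1 : ℕ) : ℝ) / ((1 : ℕ) : ℝ) * T = T := by simp
      rw [e] at hs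
      linarith
    rw [hemp]
    simp only [card_empty, Nat.cast_zero, zero_mul]
    positivity
  · set m : ℝ := (W.card : ℝ) with hmdef
    have hm2 : (2 : ℝ) ≤ m := by rw [hmdef]; exact_mod_cast h2
    have hm0 : 0 < m := by linarith
    have hkr : (1 : ℝ) ≤ k := by exact_mod_cast hk
    have hkm' : (k : ℝ) ≤ m := by rw [hmdef]; exact_mod_cast hkm
    set T0 : ℝ := ∑ i ∈ W, y i with hT0
    set r : ℝ := (k : ℝ) / m with hr
    have hr0 : 0 ≤ r := by positivity
    have ht : 0 < s + r * T0 := by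
      have : r * (-T) ≤ r * T0 := mul_le_mul_of_nonneg_left hT hr0
      linarith
    set X : ℝ := ∑ i ∈ W, y i ^ 2 - T0 ^ 2 / m with hX
    have hX0 : 0 ≤ X := by
      have := var_eq W y (T0 / m) (by omega)
      rw [← hT0, ← hmdef] at this
      have h' : 0 ≤ ∑ i ∈ W, (y i - T0 / m) ^ 2 := Finset.sum_nonneg (fun i _ => sq_nonneg _)
      rw [this] at h'
      rw [sub_self] at h'
      rw [hX]
      nlinarith
    have hXR : X ≤ R := by
      have := var_eq W y q (by omega)
      rw [← hT0, ← hmdef] at this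
      rw [this] at hR
      have h' : 0 ≤ m * (q - T0 / m) ^ 2 := by positivity
      linarith
    have hv : ((k : ℝ) * (m - k)) / (m * (m - 1)) * X ≤ r * R := by
      have e : ((k : ℝ) * (m - k)) / (m * (m - 1)) = r * ((m - k) / (m - 1)) := by
        rw [hr]
        have : m - 1 ≠ 0 := by intro h; linarith
        field_simp
      rw [e, mul_assoc]
      apply mul_le_mul_of_nonneg_left _ hr0
      have h1 : (m - k) / (m - 1) ≤ 1 := by
        rw [div_le_one (by linarith)]; linarith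
      calc (m - k) / (m - 1) * X ≤ 1 * X := mul_le_mul_of_nonneg_right h1 hX0
        _ = X := one_mul _
        _ ≤ R := hXR
    have hC := hCAN α W k y (r * R) (s + r * T0) hk hkm h2 ht hv
    rw [← hT0, ← hmdef, ← hr] at hC
    have hsub : ((W.powersetCard k).filter (fun B => ∑ i ∈ B, y i < -s)).card ≤
        ((W.powersetCard k).filter (fun B => ∑ i ∈ B, y i ≤ r * T0 - (s + r * T0))).card := by
      apply Finset.card_le_card
      intro B hB
      rw [mem_filter] at hB ⊢
      exact ⟨hB.1, by linarith [hB.2]⟩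
    have hsub' : (((W.powersetCard k).filter (fun B => ∑ i ∈ B, y i < -s)).card : ℝ) ≤
        (((W.powersetCard k).filter (fun B => ∑ i ∈ B, y i ≤ r * T0 - (s + r * T0))).card : ℝ) := by
      exact_mod_cast hsub
    have hst : s - r * T ≤ s + r * T0 := by
      have : r * (-T) ≤ r * T0 := mul_le_mul_of_nonneg_left hT hr0
      linarith
    have hsq : (s - r * T) ^ 2 ≤ (s + r * T0) ^ 2 := by
      apply pow_le_pow_left₀ (by linarith) hst
    have hrR : 0 ≤ r * R := mul_nonneg hr0 hR0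
    calc (((W.powersetCard k).filter (fun B => ∑ i ∈ B, y i < -s)).card : ℝ) *
          (r * R + (s - r * T) ^ 2)
        ≤ (((W.powersetCard k).filter (fun B => ∑ i ∈ B, y i < -s)).card : ℝ) *
          (r * R + (s + r * T0) ^ 2) := by
          apply mul_le_mul_of_nonneg_left (by linarith) (by positivity)
      _ ≤ (((W.powersetCard k).filter (fun B => ∑ i ∈ B, y i ≤ r * T0 - (s + r * T0))).card : ℝ) *
          (r * R + (s + r * T0) ^ 2) := mul_le_mul_of_nonneg_right hsub' (by positivity)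
      _ ≤ r * R * (W.card.choose k : ℝ) := hC

theorem t_HALF : S_CAN → S_HALF := by
  intro hCAN
  have key : ∀ (α : Type) [DecidableEq α] (D : Finset α) (k : ℕ) (y : α → ℝ) (R u : ℝ),
      1 ≤ k → D.card = 2 * k → ∑ i ∈ D, y i ^ 2 ≤ R → R ≤ (∑ i ∈ D, y i) ^ 2 → 0 < u →
      ((((D.powersetCard k).filter (fun A => ∑ i ∈ A, y i ≤ (∑ i ∈ D, y i) / 2 - u)).card : ℝ) *
      (R / 4 + u ^ 2) ≤ R / 4 * ((2 * k).choose k : ℝ)) := by
    intro α _ D k y R u hk hD hR hR2 hu
    have hkr : (1 : ℝ) ≤ k := by exact_mod_cast hk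
    have hDr : (D.card : ℝ) = 2 * k := by rw [hD]; push_cast; ring
    have h := hCAN α D k y (R / 4) u hk (by omega) (by omega) hu (by
      rw [hDr]
      have h1 : (k : ℝ) * (2 * k - k) / (2 * k * (2 * k - 1)) = k / (2 * (2 * k - 1)) := by
        have : (2 : ℝ) * k - 1 ≠ 0 := by intro h; linarith
        field_simp
        ring
      rw [h1]
      have h2 : ∑ i ∈ D, y i ^ 2 - (∑ i ∈ D, y i) ^ 2 / (2 * k) ≤ R - R / (2 * k) := by
        have : R / (2 * k) ≤ (∑ i ∈ D, y i) ^ 2 / (2 * k) :=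
          div_le_div_of_nonneg_right hR2 (by positivity)
        linarith
      calc (k : ℝ) / (2 * (2 * k - 1)) * (∑ i ∈ D, y i ^ 2 - (∑ i ∈ D, y i) ^ 2 / (2 * k))
          ≤ (k : ℝ) / (2 * (2 * k - 1)) * (R - R / (2 * k)) := by
            apply mul_le_mul_of_nonneg_left h2
            apply div_nonneg (by positivity); linarith
        _ = R / 4 := by
            have : (2 : ℝ) * k - 1 ≠ 0 := by intro h; linarith
            have e2 : R - R / (2 * (k : ℝ)) = R * (2 * k - 1) / (2 * k) := by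
              field_simp
            rw [e2, div_mul_div_comm, div_eq_div_iff (by positivity) (by norm_num)]
            ring)
    have e : (k : ℝ) / (D.card : ℝ) * ∑ i ∈ D, y i = (∑ i ∈ D, y i) / 2 := by
      rw [hDr]; field_simp
    rw [e] at h
    rw [hD] at h
    exact h
  intro α _ D k y R u hk hD hR hR2 hu
  refine ⟨?_, key α D k y R u hk hD hR hR2 hu⟩
  have h := key α D k (fun i => -y i) R u hk hD (by simpa using hR)
    (by simpa using hR2) hu
  have e : (D.powersetCard k).filter (fun A => ∑ i ∈ A, -y i ≤ (∑ i ∈ D, -y i) / 2 - u) =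
      (D.powersetCard k).filter (fun A => (∑ i ∈ D, y i) / 2 + u ≤ ∑ i ∈ A, y i) := by
    apply Finset.filter_congr
    intro A _
    rw [Finset.sum_neg_distrib, Finset.sum_neg_distrib]
    constructor <;> intro h <;> linarith
  rw [e] at h
  exact h

end Pool.Agent.Q125.MS
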